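import Pool.Agent.helper80.SG.Spec2

/-!
# Project sq: (MP_b5a345_ag), module ABM
-/

set_option autoImplicit false
set_option linter.unusedSectionVars false

namespace Pool.Agent.SG

open MvPolynomial Module Pool.Agent.SV

/-- induction over the entries of a function with natural values -/
theorem ABM_ind {τ : Type} [Fintype τ] [DecidableEq τ] (Q : (τ → ℕ) → Prop) (h0 : Q 0)
    (h1 : ∀ (e : τ → ℕ) (t : τ), Q e → Q (e + Pi.single t 1)) : ∀ e, Q e := by
  have key : ∀ (m : ℕ) (e : τ → ℕ), ∑ t, e t = m → Q e := by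
    intro m
    induction m with
    | zero =>
      intro e he
      have : e = 0 := by
        funext t
        exact (Finset.sum_eq_zero_iff.1 he) t (Finset.mem_univ t)
      rw [this]
      exact h0
    | succ m ih =>
      intro e he
      obtain ⟨t, ht⟩ : ∃ t, 0 < e t := by
        by_contra hno
        push Not at hno
        have : ∑ t, e t = 0 := Finset.sum_eq_zero (fun t _ => Nat.le_zero.1 (hno t))
        omega
      obtain ⟨e', rfl⟩ : ∃ e' : τ → ℕ, e = e' + Pi.single t 1 := by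
        refine ⟨fun s => if s = t then e t - 1 else e s, ?_⟩
        funext s
        by_cases hs : s = t
        · subst hs
          simp
          omega
        · simp [hs]
      apply h1 e' t
      apply ih
      have h2 : ∑ s, (e' + Pi.single t 1 : τ → ℕ) s = ∑ s, e' s + 1 := by
        simp [Finset.sum_add_distrib]
      omega
  intro e
  exact key _ e rfl

theorem ABM_star (hBCM : BCM_stmt) (hZRM : ZRM_stmt) (hUGM : UGM_stmt)
    {τ E P J : Type} [Fintype τ] [DecidableEq τ] [AddCommGroup E] [Module ℂ E] [Module.Finite ℂ E]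
    [AddCommGroup P] [Module ℂ P] [Finite J] (Φ : τ → P → E →ₗ[ℂ] (J → ℂ)) (hLP : LinePolyM Φ)
    (o : τ) (hDef : DefM Φ o (fun f : E => f ≠ 0)) (hvis : ∀ f : E, f ≠ 0 → ∃ p, Φ o p f ≠ 0)
    (a : τ → ℕ) :
    (((∀ t, 0 < a t → ccM Φ o (a + Pi.single t 1) = ccM Φ o a) ∧ ccM Φ o a < ccM Φ o 0) ∨
      ccM Φ o a = 0) → dmM Φ a = 0 := by
  classical
  intro h
  set n := 2 * ∑ t, a t + 1 with hn
  obtain ⟨⟨x, hU⟩, -⟩ := hUGM Φ hLP n
  have hat : ∀ t, 2 * a t + 1 ≤ n := by
    intro t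
    have := Finset.single_le_sum (f := a) (fun s _ => Nat.zero_le _) (Finset.mem_univ t)
    omega
  have hS : ∀ t, Finset.range (a t) ⊆ Finset.range n := by
    intro t
    apply Finset.range_subset_range.2
    have := hat t
    omega
  have hfr : finrank ℂ (KerS Φ (fun t => Finset.range (a t)) x) = dmM Φ a := by
    have h2 := hU (fun t => Finset.range (a t)) hS
    simpa using h2
  have hnv : ∀ f ∈ KerS Φ (fun t => Finset.range (a t)) x, ¬ (f ≠ 0) := by
    rcases h with ⟨h1, h2⟩ | h1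
    · exact hBCM Φ o (fun f : E => f ≠ 0) hDef n x a hU hat h1 h2 (fun t => Finset.range (a t)) hS
        (fun t => Finset.card_range _)
    · exact hZRM Φ o (fun f : E => f ≠ 0) hvis a x h1 hfr
  rw [← hfr, Submodule.finrank_eq_zero, Submodule.eq_bot_iff]
  intro f hf
  exact not_not.1 (hnv f hf)

theorem ABM_ar1 (F SA SE b g Do B N : ℕ) (h4 : F ≤ 0 + (SA + b * Do + SE))
    (h6 : SE ≤ (N - 1) * B) (hND : N ≤ Do) (hN : 0 < N) (hb : b < g)
    (hl : SA + g * Do + Do * B ≤ F) : False := by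
  obtain ⟨k, hk⟩ : ∃ k, Do = k + 1 := ⟨Do - 1, by omega⟩
  have h7 : (N - 1) * B ≤ k * B := Nat.mul_le_mul_right _ (by omega)
  have h8 : (b + 1) * Do ≤ g * Do := Nat.mul_le_mul_right _ hb
  have h9 : Do * B = k * B + B := by rw [hk, Nat.succ_mul]
  rw [Nat.succ_mul] at h8
  omega

theorem ABM_ar2 (d0 db db1 N b : ℕ) (h1 : db + b * N = d0) (h2 : db - db1 = N)
    (h3 : db1 ≤ db) : db1 + (b + 1) * N = d0 := by
  rw [Nat.succ_mul]
  omega

theorem ABM_ar3 (d0 de de1 S D : ℕ) (h1 : de ≤ de1 + D) (he : d0 ≤ de + S) :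
    d0 ≤ de1 + (S + D) := by omega

theorem ABM (hBCM : BCM_stmt) (hZRM : ZRM_stmt) (hMNM : MNM_stmt) (hRKM : RKM_stmt)
    (hUGM : UGM_stmt) : ABM_stmt := by
  classical
  intro τ E P J _ _ _ _ _ _ _ _ Φ hLP o hDef hvis D B hD hDB a g hlarge
  obtain ⟨b1, b2, -⟩ := hRKM Φ
  have hmon := hMNM Φ hLP
  have hT : ∀ (t : τ) (u : τ → ℕ), dmM Φ u ≤ dmM Φ (u + Pi.single t 1) + D t :=
    fun t => b2 t (D t) (hD t)
  obtain ⟨N, hN⟩ : ∃ N : ℕ, ccM Φ o 0 = N := ⟨_, rfl⟩
  have hND : N ≤ D o := hN ▸ tsub_le_iff_left.2 (hT o 0)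
  have hstar0 := ABM_star hBCM hZRM hUGM Φ hLP o hDef hvis
  rw [hN] at hstar0 ⊢
  have hccN : ∀ u : τ → ℕ, ccM Φ o u ≤ N := by
    apply ABM_ind
    · exact hN.le
    · intro e t he
      exact (hmon o t e).2.trans he
  have hlow : ∀ u : τ → ℕ, dmM Φ 0 ≤ dmM Φ u + ∑ t, u t * D t := by
    apply ABM_ind
    · simp
    · intro e t he
      have h2 : ∑ s, (e + Pi.single t 1 : τ → ℕ) s * D s = ∑ s, e s * D s + D t := by
        simp [add_mul, Finset.sum_add_distrib, Pi.single_apply]
      rw [h2]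
      exact ABM_ar3 _ _ _ _ _ (hT t e) he
  have hstar := hstar0
  have hdesc : ∀ (m : ℕ) (u : τ → ℕ), ccM Φ o u ≤ m → ccM Φ o u < N →
      ∃ e : τ → ℕ, ∑ t, e t ≤ m ∧ dmM Φ (u + e) = 0 := by
    intro m
    induction m with
    | zero =>
      intro u h1 _
      refine ⟨0, by simp, ?_⟩
      rw [add_zero]
      exact hstar u (Or.inr (Nat.le_zero.1 h1))
    | succ m ih =>
      intro u h1 h2
      by_cases h3 : ∀ t, 0 < u t → ccM Φ o (u + Pi.single t 1) = ccM Φ o u
      · refine ⟨0, by simp, ?_⟩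
        rw [add_zero]
        exact hstar u (Or.inl ⟨h3, h2⟩)
      · push Not at h3
        obtain ⟨t, _, ht⟩ := h3
        have h5 : ccM Φ o (u + Pi.single t 1) < ccM Φ o u := lt_of_le_of_ne (hmon o t u).2 ht
        have h5' : ccM Φ o (u + Pi.single t 1) ≤ m := Nat.le_of_lt_succ (h5.trans_le h1)
        have h5'' : ccM Φ o (u + Pi.single t 1) < N := h5.trans h2
        have hih := ih (u + Pi.single t 1)
        obtain ⟨e, h6, h7⟩ := hih h5' h5''
        refine ⟨Pi.single t 1 + e, ?_, ?_⟩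
        · have h8 : ∑ s, (Pi.single t 1 + e : τ → ℕ) s = ∑ s, e s + 1 := by
            simp [Finset.sum_add_distrib, add_comm]
          rw [h8]
          exact Nat.succ_le_succ h6
        · rw [← add_assoc]
          exact h7
  have hclaim : ∀ b, b < g → ccM Φ o (a + Pi.single o b) = N := by
    intro b hb
    by_contra hne
    have h1 : ccM Φ o (a + Pi.single o b) < N := lt_of_le_of_ne (hccN _) hne
    have h1' : ccM Φ o (a + Pi.single o b) ≤ N - 1 := Nat.le_sub_one_of_lt h1
    have hdd := hdesc (N - 1) (a + Pi.single o b)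
    obtain ⟨e, h2, h3⟩ := hdd h1' h1
    have h4 := hlow (a + Pi.single o b + e)
    rw [h3, b1] at h4
    have h5 : ∑ t, (a + Pi.single o b + e : τ → ℕ) t * D t =
        ∑ t, a t * D t + b * D o + ∑ t, e t * D t := by
      simp [add_mul, Finset.sum_add_distrib, Pi.single_apply]
    rw [h5] at h4
    have h6 : ∑ t, e t * D t ≤ (N - 1) * B := by
      calc ∑ t, e t * D t ≤ ∑ t, e t * B :=
            Finset.sum_le_sum (fun t _ => Nat.mul_le_mul_left _ (hDB t))
        _ = (∑ t, e t) * B := by rw [Finset.sum_mul]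
        _ ≤ (N - 1) * B := Nat.mul_le_mul_right _ h2
    exact ABM_ar1 _ _ _ _ _ _ _ _ h4 h6 hND (Nat.zero_lt_of_lt h1) hb hlarge
  have hfin : ∀ b, b ≤ g → dmM Φ (a + Pi.single o b) + b * N = dmM Φ a := by
    intro b
    induction b with
    | zero => intro _; simp
    | succ b ih =>
      intro hb
      have h1 := ih (Nat.le_of_succ_le hb)
      have h2 := hclaim b hb
      have h3 := (hmon o o (a + Pi.single o b)).1
      have h4 : (a + Pi.single o (b + 1) : τ → ℕ) = a + Pi.single o b + Pi.single o 1 := by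
        rw [add_assoc, ← Pi.single_add]
      rw [h4]
      exact ABM_ar2 _ _ _ _ _ h1 h2 h3
  exact hfin g le_rfl

end Pool.Agent.SG
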